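import Pool.Agent.Helper5.Steiner.Final

/-!
# Branching points of Steiner trees inside a concentric half-radius ball

For every dimension `d ≥ 2` the number of branching points in the ball of radius `1/2` of a
Steiner tree whose (finitely many) terminals lie on the unit sphere is bounded by a constant
depending only on `d`; in the plane it is at most `10`.
-/

open MeasureTheory MeasureTheory.Measure Set Metric
open scoped ENNReal

namespace Pool.Agent.Results.MP_d7b7f8_co.FinitelyManyBranchings

/-- `St` is a Steiner tree for the terminals `A`: compact, connected, contains `A`, and of least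
one-dimensional Hausdorff measure among all compact connected sets containing `A`. -/
def SteinerTree (d : ℕ) (A St : Set (EuclideanSpace ℝ (Fin d))) : Prop :=
  IsCompact St ∧ IsConnected St ∧ A ⊆ St ∧
    ∀ K : Set (EuclideanSpace ℝ (Fin d)), IsCompact K → IsConnected K → A ⊆ K →
      μH[1] St ≤ μH[1] K

/-- `p` is a branching point of `St`: a point of `St \ A` at which at least three segments of `St`
meet, i.e. `St` contains short segments starting at `p` in three different directions. -/
def Branching (d : ℕ) (A St : Set (EuclideanSpace ℝ (Fin d))) (p : EuclideanSpace ℝ (Fin d)) :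
    Prop :=
  p ∈ St ∧ p ∉ A ∧ ∃ u : Fin 3 → EuclideanSpace ℝ (Fin d), Function.Injective u ∧
    (∀ i, ‖u i‖ = 1) ∧ ∃ ε : ℝ, 0 < ε ∧ ∀ i, segment ℝ p (p + ε • u i) ⊆ St

/-- `N_d`: the supremum, over all finite `A` on the unit sphere and all Steiner trees `St` for
`A`, of the number of branching points of `St` in the open ball of radius `1/2`. -/
noncomputable def N (d : ℕ) : ℕ∞ :=
  ⨆ (A : Set (EuclideanSpace ℝ (Fin d))) (St : Set (EuclideanSpace ℝ (Fin d)))
    (_ : A.Finite) (_ : A ⊆ sphere 0 1) (_ : SteinerTree d A St),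
    {p | p ∈ ball (0 : EuclideanSpace ℝ (Fin d)) (1 / 2) ∧ Branching d A St p}.encard

/-- A set all of whose finite subsets have at most `C` elements has at most `C` elements. -/
theorem encard_le_of_finset {α : Type*} {S : Set α} {C : ℕ}
    (h : ∀ F : Finset α, (∀ p ∈ F, p ∈ S) → F.card ≤ C) : S.encard ≤ C := by
  by_contra hcon
  rw [not_le] at hcon
  have h1 : ((C + 1 : ℕ) : ℕ∞) ≤ S.encard := by
    have := Order.add_one_le_of_lt hcon
    push_cast
    exact this
  obtain ⟨t, ht, htc⟩ := exists_subset_encard_eq h1
  have htf : t.Finite := finite_of_encard_eq_coe htc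
  have h2 := h htf.toFinset (fun p hp => ht ((Set.Finite.mem_toFinset htf).1 hp))
  rw [htf.encard_eq_coe_toFinset_card] at htc
  have h3 : htf.toFinset.card = C + 1 := by exact_mod_cast htc
  omega

/-- **Theorem.** `N_d` is finite for every `d ≥ 2`, with `N_d ≤ 32 (64 d)^d`; and `N_2 ≤ 10`. -/
theorem result : (∀ d : ℕ, 2 ≤ d → N d ≤ ((32 * (64 * d) ^ d : ℕ) : ℕ∞)) ∧ N 2 ≤ 10 := by
  constructor
  · intro d hd
    refine iSup_le fun A => iSup_le fun St => iSup_le fun hA => iSup_le fun hAs =>
      iSup_le fun hSt => ?_
    apply encard_le_of_finset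
    intro F hF
    have hX : Pool.Agent.Helper5.Steiner.IsSteiner A St := ⟨hSt.1, hSt.2.1, hSt.2.2.1, hSt.2.2.2⟩
    have hdis : Disjoint A (ball 0 1) := by
      rw [Set.disjoint_left]
      intro a ha hb
      have h1 := hAs ha
      rw [mem_sphere] at h1
      rw [mem_ball, h1] at hb
      exact lt_irrefl _ hb
    exact Pool.Agent.Helper5.Steiner.card_le hd (by simp) hX hA hdis F
      (fun p hp => ⟨(hF p hp).1, (hF p hp).2⟩)
  · refine iSup_le fun A => iSup_le fun St => iSup_le fun hA => iSup_le fun hAs =>
      iSup_le fun hSt => ?_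
    have : ((10 : ℕ) : ℕ∞) = 10 := rfl
    rw [← this]
    apply encard_le_of_finset
    intro F hF
    have hX : Pool.Agent.Helper5.Steiner.IsSteiner A St := ⟨hSt.1, hSt.2.1, hSt.2.2.1, hSt.2.2.2⟩
    have hdis : Disjoint A (ball 0 1) := by
      rw [Set.disjoint_left]
      intro a ha hb
      have h1 := hAs ha
      rw [mem_sphere] at h1
      rw [mem_ball, h1] at hb
      exact lt_irrefl _ hb
    exact Pool.Agent.Helper5.Steiner.card_le_plane hX hA hdis F
      (fun p hp => ⟨(hF p hp).1, (hF p hp).2⟩)

end Pool.Agent.Results.MP_d7b7f8_co.FinitelyManyBranchings
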